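import Pool.Agent.W475.BH.Stm

set_option autoImplicit false

/-!
# The backward heat flow of the gamma factor near the line: the main estimate
-/

namespace Pool.Agent.W947.BH

open Complex MeasureTheory Filter Topology Pool.Agent.W475.BH

theorem ev_aux (C c : ℝ) (hc : 0 < c) :
    ∀ᶠ t : ℝ in atTop, C * Real.log t ^ 2 + C * Real.sqrt t + C ≤ c * t := by
  set D : ℝ := |C| + 1 with hD
  have hD0 : 0 < D := by positivity
  have hCD : C ≤ D := by
    have := le_abs_self C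
    linarith
  have hcD : 0 < c / (3 * D) := by positivity
  have h1 := (Real.isLittleO_pow_log_id_atTop (n := 2)).bound hcD
  have h2 : ∀ᶠ t : ℝ in atTop, (3 * D / c) ^ 2 ≤ t := eventually_ge_atTop _
  have h3 : ∀ᶠ t : ℝ in atTop, 3 * D / c ≤ t := eventually_ge_atTop _
  filter_upwards [h1, h2, h3, eventually_gt_atTop 0] with t g1 g2 g3 g4
  rw [Real.norm_eq_abs, abs_of_nonneg (sq_nonneg _), id, Real.norm_eq_abs, abs_of_pos g4] at g1
  have g5 : Real.sqrt t ≤ c / (3 * D) * t := by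
    have h5 : 3 * D / c ≤ Real.sqrt t := Real.le_sqrt_of_sq_le g2
    have h6 : Real.sqrt t * Real.sqrt t = t := Real.mul_self_sqrt g4.le
    have h7 : 1 ≤ c / (3 * D) * Real.sqrt t := by
      rw [div_mul_eq_mul_div, le_div_iff₀ (by positivity), one_mul]
      rw [div_le_iff₀ hc] at h5
      linarith
    have h8 : 0 ≤ Real.sqrt t := Real.sqrt_nonneg t
    calc Real.sqrt t = 1 * Real.sqrt t := (one_mul _).symm
      _ ≤ (c / (3 * D) * Real.sqrt t) * Real.sqrt t := mul_le_mul_of_nonneg_right h7 h8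
      _ = c / (3 * D) * t := by rw [mul_assoc, h6]
  have g6 : 1 ≤ c / (3 * D) * t := by
    rw [div_mul_eq_mul_div, le_div_iff₀ (by positivity), one_mul]
    rw [div_le_iff₀ hc] at g3
    linarith
  have g7 : 0 ≤ Real.log t ^ 2 := sq_nonneg _
  have g8 : 0 ≤ Real.sqrt t := Real.sqrt_nonneg t
  calc C * Real.log t ^ 2 + C * Real.sqrt t + C
      ≤ D * Real.log t ^ 2 + D * Real.sqrt t + D * 1 := by nlinarith
    _ ≤ D * (c / (3 * D) * t) + D * (c / (3 * D) * t) + D * (c / (3 * D) * t) := by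
        nlinarith
    _ = c * t := by
        field_simp
        ring

theorem ev_aux2 (C : ℝ) :
    ∀ᶠ t : ℝ in atTop, C * Real.log t ^ 2 / t ≤ 1 / 2 * t ^ (-(9 / 10) : ℝ) := by
  set D : ℝ := |C| + 1 with hD
  have hD0 : 0 < D := by positivity
  have hCD : C ≤ D := by
    have := le_abs_self C
    linarith
  have h1 := (isLittleO_log_rpow_rpow_atTop (2 : ℝ) (show (0 : ℝ) < 1 / 10 by norm_num)).bound
    (show 0 < 1 / (2 * D) by positivity)
  filter_upwards [h1, eventually_gt_atTop 1] with t g1 g4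
  have g0 : 0 < t := by linarith
  have g2 : 0 ≤ Real.log t := Real.log_nonneg g4.le
  rw [Real.rpow_two, Real.norm_eq_abs, abs_of_nonneg (sq_nonneg _), Real.norm_eq_abs,
    abs_of_pos (Real.rpow_pos_of_pos g0 _)] at g1
  have g5 : t ^ (-(9 / 10) : ℝ) * t = t ^ (1 / 10 : ℝ) := by
    nth_rewrite 2 [← Real.rpow_one t]
    rw [← Real.rpow_add g0]
    norm_num
  rw [div_le_iff₀ g0, mul_assoc, g5]
  calc C * Real.log t ^ 2 ≤ D * Real.log t ^ 2 := mul_le_mul_of_nonneg_right hCD (sq_nonneg _)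
    _ ≤ D * (1 / (2 * D) * t ^ (1 / 10 : ℝ)) := mul_le_mul_of_nonneg_left g1 hD0.le
    _ = 1 / 2 * t ^ (1 / 10 : ℝ) := by
        field_simp

theorem gauss_bd (κ : ℝ) (hκ : 0 < κ) :
    ∫ x : ℝ, Real.exp (-(x ^ 2 / (16 * κ))) = 4 * Real.sqrt Real.pi * Real.sqrt κ := by
  have h := integral_gaussian (1 / (16 * κ))
  have h1 : (fun x : ℝ => Real.exp (-(1 / (16 * κ)) * x ^ 2)) =
      fun x : ℝ => Real.exp (-(x ^ 2 / (16 * κ))) := by
    funext x
    congr 1
    ring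
  rw [h1] at h
  rw [h]
  have h2 : Real.pi / (1 / (16 * κ)) = 4 ^ 2 * (Real.pi * κ) := by
    field_simp
    norm_num
  rw [h2, Real.sqrt_mul (by positivity), Real.sqrt_sq (by norm_num), Real.sqrt_mul Real.pi_pos.le]
  ring

theorem gauss_int (κ : ℝ) (hκ : 0 < κ) : Integrable fun x : ℝ => Real.exp (-(x ^ 2 / (16 * κ))) := by
  have h := integrable_exp_neg_mul_sq (b := 1 / (16 * κ)) (by positivity)
  refine h.congr (Eventually.of_forall fun x => ?_)
  simp only
  congr 1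
  ring

theorem gauss_main (κ s : ℝ) (hκ : 0 < κ) :
    ∫ v : ℝ, Real.exp (-((v + s) ^ 2 / (4 * κ))) = 2 * Real.sqrt Real.pi * Real.sqrt κ := by
  rw [integral_add_right_eq_self (fun v : ℝ => Real.exp (-(v ^ 2 / (4 * κ)))) s]
  have h := integral_gaussian (1 / (4 * κ))
  have h1 : (fun x : ℝ => Real.exp (-(1 / (4 * κ)) * x ^ 2)) =
      fun x : ℝ => Real.exp (-(x ^ 2 / (4 * κ))) := by
    funext x
    congr 1
    ring
  rw [h1] at h
  rw [h]
  have h2 : Real.pi / (1 / (4 * κ)) = 2 ^ 2 * (Real.pi * κ) := by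
    field_simp
    norm_num
  rw [h2, Real.sqrt_mul (by positivity), Real.sqrt_sq (by norm_num), Real.sqrt_mul Real.pi_pos.le]
  ring

theorem gauss_main_int (κ s : ℝ) (hκ : 0 < κ) :
    Integrable fun v : ℝ => Real.exp (-((v + s) ^ 2 / (4 * κ))) := by
  have h := integrable_exp_neg_mul_sq (b := 1 / (4 * κ)) (by positivity)
  have h2 := h.comp_add_right s
  refine h2.congr (Eventually.of_forall fun x => ?_)
  simp only
  congr 1
  ring

theorem tail (κ C1 X A : ℝ) (hκ : 0 < κ) (hX : 8 * κ * C1 ≤ X) (hX0 : 0 < X)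
    (hA : 0 ≤ A) (f : ℝ → ℂ)
    (hf : ∀ x : ℝ, X ≤ |x| → ‖f x‖ ≤ A * Real.exp (-(x ^ 2 / (4 * κ)) + C1 * |x|)) :
    ‖∫ x in (Set.Ioc (-X) X)ᶜ, f x‖ ≤
      A * Real.exp (-(X ^ 2 / (16 * κ))) * (4 * Real.sqrt Real.pi * Real.sqrt κ) := by
  have hg : Integrable fun x : ℝ =>
      A * Real.exp (-(X ^ 2 / (16 * κ))) * Real.exp (-(x ^ 2 / (16 * κ))) :=
    (gauss_int κ hκ).const_mul _
  have h1 : ‖∫ x in (Set.Ioc (-X) X)ᶜ, f x‖ ≤ ∫ x in (Set.Ioc (-X) X)ᶜ,
      A * Real.exp (-(X ^ 2 / (16 * κ))) * Real.exp (-(x ^ 2 / (16 * κ))) := by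
    refine norm_integral_le_of_norm_le hg.integrableOn ?_
    refine (ae_restrict_iff' (measurableSet_Ioc.compl)).2 (Eventually.of_forall fun x hx => ?_)
    have hx1 : X ≤ |x| := by
      by_contra h
      rw [not_le, abs_lt] at h
      exact hx ⟨h.1, h.2.le⟩
    refine (hf x hx1).trans ?_
    rw [mul_assoc]
    refine mul_le_mul_of_nonneg_left ?_ hA
    rw [← Real.exp_add]
    refine Real.exp_le_exp.2 ?_
    have h2 : C1 * |x| ≤ x ^ 2 / (8 * κ) := by
      rw [le_div_iff₀ (by positivity)]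
      have h3 : x ^ 2 = |x| * |x| := by rw [← sq, sq_abs]
      rw [h3]
      have h4 : 8 * κ * C1 ≤ |x| := hX.trans hx1
      have h5 := mul_le_mul_of_nonneg_right h4 (abs_nonneg x)
      linarith
    have h6 : X ^ 2 ≤ x ^ 2 := by
      rw [← sq_abs x]
      exact pow_le_pow_left₀ hX0.le hx1 2
    have h7 : X ^ 2 / (16 * κ) ≤ x ^ 2 / (16 * κ) :=
      div_le_div_of_nonneg_right h6 (by positivity)
    have h8 : x ^ 2 / (4 * κ) = 4 * (x ^ 2 / (16 * κ)) := by
      field_simp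
      norm_num
    have h9 : x ^ 2 / (8 * κ) = 2 * (x ^ 2 / (16 * κ)) := by
      field_simp
      ring
    rw [h9] at h2
    rw [h8]
    linarith
  refine h1.trans ((setIntegral_le_integral hg (Eventually.of_forall fun x => ?_)).trans ?_)
  · simp only [Pi.zero_apply]
    positivity
  · rw [integral_const_mul, gauss_bd κ hκ]

theorem rect (F : ℂ → ℂ) (a X B : ℝ) (ha : 0 ≤ a) (hX : 0 ≤ X)
    (hF : ∀ w : ℂ, -a ≤ w.re → w.re ≤ 0 → |w.im| ≤ X → DifferentiableAt ℂ F w)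
    (hB : ∀ w : ℂ, -a ≤ w.re → w.re ≤ 0 → |w.im| = X → ‖F w‖ ≤ B) :
    ‖(∫ y : ℝ in (-X)..X, F ((0 : ℝ) + y * I)) - ∫ y : ℝ in (-X)..X, F ((-a : ℝ) + y * I)‖ ≤
      2 * a * B := by
  have h := Complex.integral_boundary_rect_eq_zero_of_differentiableOn F (⟨-a, -X⟩ : ℂ) (⟨0, X⟩ : ℂ)
    (by
      intro w hw
      rw [Complex.mem_reProdIm] at hw
      simp only at hw
      rw [Set.uIcc_of_le (by linarith), Set.uIcc_of_le (by linarith)] at hw
      exact (hF w hw.1.1 hw.1.2 (abs_le.2 hw.2)).differentiableWithinAt)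
  simp only [smul_eq_mul] at h
  have h1 : ‖∫ x : ℝ in (-a)..0, F (x + ((-X : ℝ) : ℂ) * I)‖ ≤ B * |0 - (-a)| := by
    refine intervalIntegral.norm_integral_le_of_norm_le_const fun x hx => ?_
    rw [Set.uIoc_of_le (by linarith)] at hx
    refine hB _ ?_ ?_ ?_
    · simp
      linarith [hx.1]
    · simp
      linarith [hx.2]
    · simp
      exact hX
  have h2 : ‖∫ x : ℝ in (-a)..0, F (x + ((X : ℝ) : ℂ) * I)‖ ≤ B * |0 - (-a)| := by
    refine intervalIntegral.norm_integral_le_of_norm_le_const fun x hx => ?_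
    rw [Set.uIoc_of_le (by linarith)] at hx
    refine hB _ ?_ ?_ ?_
    · simp
      linarith [hx.1]
    · simp
      linarith [hx.2]
    · simp
      exact hX
  have h3 : |0 - (-a)| = a := by
    rw [zero_sub, neg_neg, abs_of_nonneg ha]
  rw [h3] at h1 h2
  set P := ∫ x : ℝ in (-a)..0, F (x + ((-X : ℝ) : ℂ) * I) with hP
  set Q := ∫ x : ℝ in (-a)..0, F (x + ((X : ℝ) : ℂ) * I) with hQ
  set R := ∫ y : ℝ in (-X)..X, F ((0 : ℝ) + y * I) with hR
  set S := ∫ y : ℝ in (-X)..X, F ((-a : ℝ) + y * I) with hS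
  have h4 : I * (R - S) = Q - P := by
    linear_combination h
  have h5 : ‖R - S‖ = ‖Q - P‖ := by
    rw [← h4, norm_mul, Complex.norm_I, one_mul]
  rw [h5]
  calc ‖Q - P‖ ≤ ‖Q‖ + ‖P‖ := norm_sub_le _ _
    _ ≤ B * a + B * a := add_le_add h2 h1
    _ = 2 * a * B := by ring

theorem GG_eq (h2 : S_GGH) (κ : ℝ) (hκ : 0 < κ) (z : ℂ) (hz : 0 ≤ z.re) :
    Integrable (fun x : ℝ => ((Real.exp (-(x ^ 2 / (4 * κ))) : ℝ) : ℂ) * HH (z + I * (x : ℂ))) ∧
    GG κ z = ((1 / (2 * Real.sqrt Real.pi * Real.sqrt κ) : ℝ) : ℂ) *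
      ∫ x : ℝ, ((Real.exp (-(x ^ 2 / (4 * κ))) : ℝ) : ℂ) * HH (z + I * (x : ℂ)) := by
  obtain ⟨h3, h4⟩ := h2 κ hκ z hz
  have hs : 0 < Real.sqrt κ := Real.sqrt_pos.2 hκ
  have hR : 2 * Real.sqrt κ ≠ 0 := by positivity
  set g : ℝ → ℂ := fun x : ℝ => ((Real.exp (-(x ^ 2 / (4 * κ))) : ℝ) : ℂ) * HH (z + I * (x : ℂ))
    with hg
  have h5 : (fun v : ℝ => ((Real.exp (-v ^ 2) : ℝ) : ℂ) *
    HH (z + I * ((2 * Real.sqrt κ * v : ℝ) : ℂ))) = fun v : ℝ => g (2 * Real.sqrt κ * v) := by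
    funext v
    rw [hg]
    simp only
    congr 3
    have : (2 * Real.sqrt κ * v) ^ 2 = 4 * κ * v ^ 2 := by
      rw [mul_pow, mul_pow, Real.sq_sqrt hκ.le]
      ring
    rw [this]
    field_simp
  rw [h5] at h3
  have h6 : ∫ v : ℝ, ((Real.exp (-v ^ 2) : ℝ) : ℂ) *
    HH (z + I * ((2 * Real.sqrt κ * v : ℝ) : ℂ)) = ∫ v : ℝ, g (2 * Real.sqrt κ * v) := by
    rw [h5]
  rw [h6] at h4
  refine ⟨(integrable_comp_mul_left_iff g hR).1 h3, ?_⟩
  rw [h4, Measure.integral_comp_mul_left g (2 * Real.sqrt κ), Complex.real_smul, ← mul_assoc,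
    ← Complex.ofReal_mul]
  congr 2
  rw [abs_of_pos (by positivity)]
  have hp : Real.sqrt Real.pi ≠ 0 := (Real.sqrt_pos.2 Real.pi_pos).ne'
  field_simp

/-- The shifted Gaussian is bounded by a centred one. -/
theorem G_le (κ b v : ℝ) (hκ : 0 < κ) (hb : |b| ≤ 1) :
    -((v + 2 * κ * b) ^ 2 / (4 * κ)) ≤ -(v ^ 2 / (4 * κ)) + 1 * |v| := by
  have h1 : -((v + 2 * κ * b) ^ 2 / (4 * κ)) = -(v ^ 2 / (4 * κ)) - b * v - κ * b ^ 2 := by
    field_simp
    ring
  have h2 : -(b * v) ≤ 1 * |v| := by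
    have h3 : |b * v| ≤ 1 * |v| := by
      rw [abs_mul]
      exact mul_le_mul_of_nonneg_right hb (abs_nonneg v)
    have h4 := neg_abs_le (b * v)
    linarith
  have h5 : 0 ≤ κ * b ^ 2 := by positivity
  rw [h1]
  linarith

theorem G_le2 (κ b v : ℝ) (hκ : 0 < κ) (hb : |b| ≤ 1) (Q : ℝ) (hQ : 0 ≤ Q) :
    Real.exp (-((v + 2 * κ * b) ^ 2 / (4 * κ))) * (Q + 2 * v ^ 2) ≤
      Real.exp (2 * κ) * (Q + 32 * κ) * Real.exp (-(v ^ 2 / (16 * κ))) := by
  have h1 := G_le κ b v hκ hb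
  have h2 : |v| ≤ v ^ 2 / (8 * κ) + 2 * κ := by
    have h3 : 0 ≤ (|v| - 4 * κ) ^ 2 / (8 * κ) := by positivity
    have h4 : (|v| - 4 * κ) ^ 2 / (8 * κ) = |v| ^ 2 / (8 * κ) - |v| + 2 * κ := by
      field_simp
      ring
    rw [sq_abs] at h4
    linarith
  have h8 : v ^ 2 / (4 * κ) = 4 * (v ^ 2 / (16 * κ)) := by
    field_simp
    norm_num
  have h9 : v ^ 2 / (8 * κ) = 2 * (v ^ 2 / (16 * κ)) := by
    field_simp
    ring
  set y := v ^ 2 / (16 * κ) with hy
  have hy0 : 0 ≤ y := by positivity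
  have h10 : Real.exp (-((v + 2 * κ * b) ^ 2 / (4 * κ))) ≤ Real.exp (2 * κ) * Real.exp (-(2 * y)) := by
    rw [← Real.exp_add]
    refine Real.exp_le_exp.2 ?_
    linarith
  have h11 : v ^ 2 = 16 * κ * y := by
    rw [hy]
    field_simp
  have h12 : y * Real.exp (-(2 * y)) ≤ Real.exp (-y) := by
    have h13 : y ≤ Real.exp y := by
      have := Real.add_one_le_exp y
      linarith
    calc y * Real.exp (-(2 * y)) ≤ Real.exp y * Real.exp (-(2 * y)) :=
          mul_le_mul_of_nonneg_right h13 (Real.exp_pos _).le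
      _ = Real.exp (-y) := by
          rw [← Real.exp_add]
          congr 1
          ring
  have h14 : Real.exp (-(2 * y)) ≤ Real.exp (-y) := Real.exp_le_exp.2 (by linarith)
  calc Real.exp (-((v + 2 * κ * b) ^ 2 / (4 * κ))) * (Q + 2 * v ^ 2)
      ≤ Real.exp (2 * κ) * Real.exp (-(2 * y)) * (Q + 2 * v ^ 2) :=
        mul_le_mul_of_nonneg_right h10 (by positivity)
    _ = Real.exp (2 * κ) * (Q * Real.exp (-(2 * y)) + 32 * κ * (y * Real.exp (-(2 * y)))) := by
        rw [h11]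
        ring
    _ ≤ Real.exp (2 * κ) * (Q * Real.exp (-y) + 32 * κ * Real.exp (-y)) := by
        refine mul_le_mul_of_nonneg_left (add_le_add ?_ ?_) (Real.exp_pos _).le
        · exact mul_le_mul_of_nonneg_left h14 hQ
        · exact mul_le_mul_of_nonneg_left h12 (by positivity)
    _ = Real.exp (2 * κ) * (Q + 32 * κ) * Real.exp (-y) := by ring

theorem key (h2 : S_GGH) (κ K0 Kc K1 t X : ℝ) (u : ℂ) (hκ : 0 < κ) (hK0 : 1 ≤ K0)
    (hKc : 1 ≤ Kc) (hK1 : 1 ≤ K1) (ht : 0 < t)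
    (s3 : Real.exp (-(K0 * t)) ≤ ‖HH (I * t)‖)
    (s4 : ∀ u : ℂ, ‖u‖ ≤ t / 8 → 0 < (I * t + u).im ∧ DifferentiableAt ℂ HH (I * t + u) ∧
      ‖HH (I * t + u)‖ ≤ ‖HH (I * t)‖ * Real.exp (Real.log t / 2 * u.re + K0 * ‖u‖))
    (s5 : ∀ u : ℂ, K0 * ‖u‖ ^ 2 ≤ t →
      ‖HH (I * t + u) - HH (I * t) * cexp (be t * u)‖ ≤
        K0 * ‖u‖ ^ 2 / t * ‖HH (I * t) * cexp (be t * u)‖)
    (hc : ∀ z : ℂ, 0 ≤ z.re →
      ‖HH z‖ ≤ (1 + ‖z‖) ^ 2 * Real.exp (Kc * (1 + z.re) * Real.log (2 + z.re)))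
    (hX : X = Real.sqrt t / (2 * K0)) (hl : 1 ≤ Real.log t)
    (hb1 : 0 ≤ (be t).re) (hb1' : (be t).re ≤ Real.log t) (hb2 : |(be t).im| ≤ 1)
    (n3 : (K1 + 2 * κ) * Real.log t + X ≤ t / 8) (n3' : K1 * Real.log t ≤ t / 16)
    (n4 : 2 * K0 * ((K1 + 2 * κ) * Real.log t) ^ 2 ≤ t / 2)
    (n5 : 8 * κ * (34 + 16 * K0) ≤ X)
    (hu : ‖u‖ ≤ K1 * Real.log t) (hu0 : 0 ≤ u.re) :
    ‖GG κ (I * t + u) - HH (I * t) * cexp (be t * u - (κ : ℂ) * be t ^ 2)‖ ≤
      1 / (2 * Real.sqrt Real.pi * Real.sqrt κ) *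
      (2 * (2 * κ * Real.log t) * (‖HH (I * t)‖ *
          Real.exp ((K1 + K0 * (K1 + 2 * κ) + κ) * Real.log t ^ 2 - X ^ 2 / (16 * κ))) +
        ‖HH (I * t) * cexp (be t * u - (κ : ℂ) * be t ^ 2)‖ * (K0 / t) *
          (Real.exp (2 * κ) * (2 * ((K1 + 2 * κ) * Real.log t) ^ 2 + 32 * κ)) *
          (4 * Real.sqrt Real.pi * Real.sqrt κ) +
        ‖HH (I * t)‖ * Real.exp ((3 * K1 + K0 * K1 + Kc * (1 + K1) ^ 2) * Real.log t ^ 2) *
          Real.exp (-(X ^ 2 / (16 * κ))) * (4 * Real.sqrt Real.pi * Real.sqrt κ) +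
        ‖HH (I * t) * cexp (be t * u - (κ : ℂ) * be t ^ 2)‖ *
          Real.exp (-(X ^ 2 / (16 * κ))) * (4 * Real.sqrt Real.pi * Real.sqrt κ)) := by
  set l := Real.log t with hldef
  set b := be t with hb
  set M := HH (I * t) * cexp (b * u - (κ : ℂ) * b ^ 2) with hM
  set H := ‖HH (I * t)‖ with hH
  have hH0 : 0 ≤ H := norm_nonneg _
  have hM0 : 0 ≤ ‖M‖ := norm_nonneg _
  have hl0 : 0 < l := by linarith
  have hll : l ≤ l ^ 2 := by nlinarith
  have hK0' : 0 < K0 := by linarith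
  have hX0 : 0 < X := by
    have : 0 < 8 * κ * (34 + 16 * K0) := by positivity
    linarith
  have hX2 : 2 * K0 * X ^ 2 ≤ t / 2 := by
    rw [hX, div_pow, Real.sq_sqrt ht.le]
    rw [show 2 * K0 * (t / (2 * K0) ^ 2) = t / 2 / K0 by field_simp]
    exact div_le_self (by positivity) hK0
  obtain ⟨hfi, hGG⟩ := GG_eq h2 κ hκ (I * t + u) (by simpa using hu0)
  set f : ℝ → ℂ := fun x : ℝ => ((Real.exp (-(x ^ 2 / (4 * κ))) : ℝ) : ℂ) *
    HH (I * t + u + I * (x : ℂ)) with hf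
  set F : ℂ → ℂ := fun w => HH (I * t + (u + w)) * cexp (w ^ 2 / (4 * (κ : ℂ))) with hF
  set G : ℝ → ℝ := fun v => Real.exp (-((v + 2 * κ * b.im) ^ 2 / (4 * κ))) with hG
  have hκc : (κ : ℂ) ≠ 0 := by exact_mod_cast hκ.ne'
  -- the norm of the Gaussian factor
  have hgn : ∀ w : ℂ, ‖cexp (w ^ 2 / (4 * (κ : ℂ)))‖ = Real.exp ((w.re ^ 2 - w.im ^ 2) / (4 * κ)) := by
    intro w
    rw [Complex.norm_exp]
    congr 1
    have h1 : (4 * (κ : ℂ)) = ((4 * κ : ℝ) : ℂ) := by push_cast; ring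
    rw [h1, Complex.div_ofReal_re]
    congr 1
    simp [sq]
  -- the values on the line
  have hFf : ∀ y : ℝ, F ((0 : ℝ) + y * I) = f y := by
    intro y
    simp only [hF, hf]
    rw [mul_comm]
    congr 1
    · rw [Complex.ofReal_exp]
      congr 1
      push_cast
      rw [zero_add, mul_pow, Complex.I_sq]
      ring
    · congr 1
      push_cast
      ring
  have hre : ∀ w : ℂ, (I * (t : ℂ) + w).re = w.re := by
    intro w
    simp
  -- differentiability
  have hnorm : ∀ w : ℂ, -(2 * κ * b.re) ≤ w.re → w.re ≤ 0 → |w.im| ≤ X →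
      ‖u + w‖ ≤ (K1 + 2 * κ) * l + |w.im| := by
    intro w h1 h3 _
    have h4 : ‖w‖ ≤ |w.re| + |w.im| := Complex.norm_le_abs_re_add_abs_im w
    have h5 : |w.re| ≤ 2 * κ * l := by
      rw [abs_of_nonpos h3]
      have : 2 * κ * b.re ≤ 2 * κ * l := mul_le_mul_of_nonneg_left hb1' (by positivity)
      linarith
    have h6 := norm_add_le u w
    nlinarith
  have hnorm8 : ∀ w : ℂ, -(2 * κ * b.re) ≤ w.re → w.re ≤ 0 → |w.im| ≤ X → ‖u + w‖ ≤ t / 8 := by
    intro w h1 h3 h4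
    have := hnorm w h1 h3 h4
    linarith
  have hdiff : ∀ w : ℂ, -(2 * κ * b.re) ≤ w.re → w.re ≤ 0 → |w.im| ≤ X →
      DifferentiableAt ℂ F w := by
    intro w h1 h3 h4
    have h5 := (s4 (u + w) (hnorm8 w h1 h3 h4)).2.1
    have h6 : DifferentiableAt ℂ (fun w : ℂ => HH (I * t + (u + w))) w := by
      refine DifferentiableAt.comp w (g := HH) (f := fun w : ℂ => I * t + (u + w)) h5 ?_
      fun_prop
    have h7 : DifferentiableAt ℂ (fun w : ℂ => cexp (w ^ 2 / (4 * (κ : ℂ)))) w := by fun_prop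
    exact h6.mul h7
  -- horizontal sides
  have hhor : ∀ w : ℂ, -(2 * κ * b.re) ≤ w.re → w.re ≤ 0 → |w.im| = X → ‖F w‖ ≤ H *
      Real.exp ((K1 + K0 * (K1 + 2 * κ) + κ) * l ^ 2 - X ^ 2 / (16 * κ)) := by
    intro w h1 h3 h4
    have h5 := (s4 (u + w) (hnorm8 w h1 h3 h4.le)).2.2
    have h6 := hnorm w h1 h3 h4.le
    simp only [hF]
    rw [norm_mul, hgn]
    refine (mul_le_mul_of_nonneg_right h5 (Real.exp_pos _).le).trans ?_
    rw [mul_assoc, ← Real.exp_add]
    refine mul_le_mul_of_nonneg_left (Real.exp_le_exp.2 ?_) hH0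
    have h7 : (u + w).re ≤ K1 * l := by
      rw [Complex.add_re]
      have := (Complex.re_le_norm u).trans hu
      linarith
    have h8 : l / 2 * (u + w).re ≤ K1 * l ^ 2 := by
      calc l / 2 * (u + w).re ≤ l / 2 * (K1 * l) :=
            mul_le_mul_of_nonneg_left h7 (by positivity)
        _ ≤ K1 * l ^ 2 := by nlinarith
    have h9 : K0 * ‖u + w‖ ≤ K0 * (K1 + 2 * κ) * l ^ 2 + K0 * X := by
      calc K0 * ‖u + w‖ ≤ K0 * ((K1 + 2 * κ) * l + |w.im|) :=
            mul_le_mul_of_nonneg_left h6 hK0'.le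
        _ = K0 * (K1 + 2 * κ) * l + K0 * X := by rw [h4]; ring
        _ ≤ K0 * (K1 + 2 * κ) * l ^ 2 + K0 * X := by
            have : K0 * (K1 + 2 * κ) * l ≤ K0 * (K1 + 2 * κ) * l ^ 2 :=
              mul_le_mul_of_nonneg_left hll (by positivity)
            linarith
    have h10 : w.im ^ 2 = X ^ 2 := by rw [← h4, sq_abs]
    have h11 : w.re ^ 2 ≤ (2 * κ * l) ^ 2 := by
      have h12 : |w.re| ≤ 2 * κ * l := by
        rw [abs_of_nonpos h3]
        have : 2 * κ * b.re ≤ 2 * κ * l := mul_le_mul_of_nonneg_left hb1' (by positivity)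
        linarith
      rw [← sq_abs w.re]
      exact pow_le_pow_left₀ (abs_nonneg _) h12 2
    have h13 : (w.re ^ 2 - w.im ^ 2) / (4 * κ) ≤ κ * l ^ 2 - X ^ 2 / (4 * κ) := by
      rw [h10, sub_div]
      have : w.re ^ 2 / (4 * κ) ≤ κ * l ^ 2 := by
        rw [div_le_iff₀ (by positivity)]
        nlinarith
      linarith
    have h14 : K0 * X ≤ X ^ 2 / (8 * κ) := by
      rw [le_div_iff₀ (by positivity)]
      have h15 : 8 * κ * K0 ≤ X := by
        have : 8 * κ * K0 ≤ 8 * κ * (34 + 16 * K0) :=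
          mul_le_mul_of_nonneg_left (by linarith) (by positivity)
        linarith
      nlinarith
    have h16 : X ^ 2 / (4 * κ) = 4 * (X ^ 2 / (16 * κ)) := by
      field_simp
      norm_num
    have h17 : X ^ 2 / (8 * κ) = 2 * (X ^ 2 / (16 * κ)) := by
      field_simp
      ring
    have h18 : 0 ≤ X ^ 2 / (16 * κ) := by positivity
    rw [h16] at h13
    rw [h17] at h14
    linarith
  have ha : 0 ≤ 2 * κ * b.re := by positivity
  have hrect := rect F (2 * κ * b.re) X _ ha hX0.le hdiff hhor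
  -- the segment
  have hFM : ∀ v : ℝ, |v| ≤ X → ‖F ((-(2 * κ * b.re) : ℝ) + v * I) - M * (G v : ℂ)‖ ≤
      ‖M‖ * (K0 / t) * (Real.exp (2 * κ) * (2 * ((K1 + 2 * κ) * l) ^ 2 + 32 * κ)) *
        Real.exp (-(v ^ 2 / (16 * κ))) := by
    intro v hv
    set w : ℂ := (-(2 * κ * b.re) : ℝ) + v * I with hw
    have hwre : w.re = -(2 * κ * b.re) := by simp [hw]
    have hwim : w.im = v := by simp [hw]
    have h1 : ‖u + w‖ ≤ (K1 + 2 * κ) * l + |v| := by
      have := hnorm w (by rw [hwre]) (by rw [hwre]; linarith) (by rw [hwim]; exact hv)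
      rwa [hwim] at this
    have h3 : ‖u + w‖ ^ 2 ≤ 2 * ((K1 + 2 * κ) * l) ^ 2 + 2 * v ^ 2 := by
      have h4 : ‖u + w‖ ^ 2 ≤ ((K1 + 2 * κ) * l + |v|) ^ 2 :=
        pow_le_pow_left₀ (norm_nonneg _) h1 2
      have h5 : |v| ^ 2 = v ^ 2 := sq_abs v
      nlinarith [sq_nonneg ((K1 + 2 * κ) * l - |v|)]
    have h6 : v ^ 2 ≤ X ^ 2 := by
      rw [← sq_abs v]
      exact pow_le_pow_left₀ (abs_nonneg _) hv 2
    have h7 : K0 * ‖u + w‖ ^ 2 ≤ t := by
      calc K0 * ‖u + w‖ ^ 2 ≤ K0 * (2 * ((K1 + 2 * κ) * l) ^ 2 + 2 * v ^ 2) :=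
            mul_le_mul_of_nonneg_left h3 hK0'.le
        _ ≤ K0 * (2 * ((K1 + 2 * κ) * l) ^ 2 + 2 * X ^ 2) :=
            mul_le_mul_of_nonneg_left (by linarith) hK0'.le
        _ ≤ t := by linarith
    have h8 := s5 (u + w) h7
    have h9 : cexp (b * (u + w)) * cexp (w ^ 2 / (4 * (κ : ℂ))) =
        cexp (b * u - (κ : ℂ) * b ^ 2) * (G v : ℂ) := by
      simp only [hG]
      rw [Complex.ofReal_exp, ← Complex.exp_add, ← Complex.exp_add]
      congr 1
      have h10 : b = (b.re : ℂ) + b.im * I := (Complex.re_add_im b).symm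
      push_cast
      rw [hw]
      push_cast
      generalize (b.re : ℂ) = x at *
      generalize (b.im : ℂ) = y at *
      rw [h10]
      field_simp
      have hI : I ^ 2 = -1 := Complex.I_sq
      ring_nf
      rw [hI]
      ring
    have h11 : F w - M * (G v : ℂ) = (HH (I * t + (u + w)) - HH (I * t) * cexp (b * (u + w))) *
        cexp (w ^ 2 / (4 * (κ : ℂ))) := by
      simp only [hF, hM]
      rw [sub_mul, mul_assoc (HH (I * t)), mul_assoc (HH (I * t)), h9]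
    have h12 : ‖HH (I * t) * cexp (b * (u + w))‖ * ‖cexp (w ^ 2 / (4 * (κ : ℂ)))‖ = ‖M‖ * G v := by
      rw [← norm_mul, mul_assoc, h9, ← mul_assoc, norm_mul, Complex.norm_real, Real.norm_eq_abs,
        abs_of_pos (show 0 < G v from Real.exp_pos _)]
    rw [h11, norm_mul]
    calc ‖HH (I * t + (u + w)) - HH (I * t) * cexp (b * (u + w))‖ *
          ‖cexp (w ^ 2 / (4 * (κ : ℂ)))‖
        ≤ (K0 * ‖u + w‖ ^ 2 / t * ‖HH (I * t) * cexp (b * (u + w))‖) *
          ‖cexp (w ^ 2 / (4 * (κ : ℂ)))‖ := mul_le_mul_of_nonneg_right h8 (norm_nonneg _)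
      _ = K0 * ‖u + w‖ ^ 2 / t * (‖M‖ * G v) := by rw [mul_assoc, h12]
      _ = ‖M‖ * (K0 / t) * (G v * ‖u + w‖ ^ 2) := by ring
      _ ≤ ‖M‖ * (K0 / t) * (G v * (2 * ((K1 + 2 * κ) * l) ^ 2 + 2 * v ^ 2)) := by
          refine mul_le_mul_of_nonneg_left (mul_le_mul_of_nonneg_left h3 (Real.exp_pos _).le) ?_
          positivity
      _ ≤ ‖M‖ * (K0 / t) * (Real.exp (2 * κ) * (2 * ((K1 + 2 * κ) * l) ^ 2 + 32 * κ) *
            Real.exp (-(v ^ 2 / (16 * κ)))) := by
          refine mul_le_mul_of_nonneg_left ?_ (by positivity)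
          exact G_le2 κ b.im v hκ hb2 _ (by positivity)
      _ = _ := by ring
  -- tails
  have htf : ‖∫ x in (Set.Ioc (-X) X)ᶜ, f x‖ ≤
      H * Real.exp ((3 * K1 + K0 * K1 + Kc * (1 + K1) ^ 2) * l ^ 2) *
        Real.exp (-(X ^ 2 / (16 * κ))) * (4 * Real.sqrt Real.pi * Real.sqrt κ) := by
    refine tail κ (34 + 16 * K0) X _ hκ n5 hX0 (by positivity) f fun x hx => ?_
    simp only [hf]
    rw [norm_mul, Complex.norm_real, Real.norm_eq_abs, abs_of_pos (Real.exp_pos _)]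
    have hx0 : 0 ≤ |x| := abs_nonneg x
    have hux : ‖u + I * (x : ℂ)‖ ≤ K1 * l + |x| := by
      refine (norm_add_le _ _).trans ?_
      rw [norm_mul, Complex.norm_I, one_mul, Complex.norm_real, Real.norm_eq_abs]
      linarith
    have hkey : ‖HH (I * t + u + I * (x : ℂ))‖ ≤
        H * Real.exp ((3 * K1 + K0 * K1 + Kc * (1 + K1) ^ 2) * l ^ 2 + (34 + 16 * K0) * |x|) := by
      rcases le_or_gt |x| (t / 16) with h1 | h1
      · have h3 : ‖u + I * (x : ℂ)‖ ≤ t / 8 := by linarith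
        have h4 := (s4 _ h3).2.2
        rw [← add_assoc] at h4
        refine h4.trans (mul_le_mul_of_nonneg_left (Real.exp_le_exp.2 ?_) hH0)
        have h5 : (u + I * (x : ℂ)).re ≤ K1 * l := by
          have : (u + I * (x : ℂ)).re = u.re := by simp
          rw [this]
          exact (Complex.re_le_norm u).trans hu
        have h8 : l / 2 * (u + I * (x : ℂ)).re ≤ K1 * l ^ 2 := by
          calc l / 2 * (u + I * (x : ℂ)).re ≤ l / 2 * (K1 * l) :=
                mul_le_mul_of_nonneg_left h5 (by positivity)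
            _ ≤ K1 * l ^ 2 := by nlinarith
        have h9 : K0 * ‖u + I * (x : ℂ)‖ ≤ K0 * K1 * l ^ 2 + K0 * |x| := by
          calc K0 * ‖u + I * (x : ℂ)‖ ≤ K0 * (K1 * l + |x|) :=
                mul_le_mul_of_nonneg_left hux hK0'.le
            _ = K0 * K1 * l + K0 * |x| := by ring
            _ ≤ K0 * K1 * l ^ 2 + K0 * |x| := by
                have : K0 * K1 * l ≤ K0 * K1 * l ^ 2 :=
                  mul_le_mul_of_nonneg_left hll (by positivity)
                linarith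
        have h10 : 0 ≤ (2 * K1 + Kc * (1 + K1) ^ 2) * l ^ 2 := by positivity
        have h11 : K0 * |x| ≤ (34 + 16 * K0) * |x| :=
          mul_le_mul_of_nonneg_right (by linarith) hx0
        nlinarith
      · have h3 : (I * t + u + I * (x : ℂ)).re = u.re := by simp
        have h4 := hc (I * t + u + I * (x : ℂ)) (by rw [h3]; exact hu0)
        rw [h3] at h4
        have h5 : ‖I * (t : ℂ) + u + I * (x : ℂ)‖ ≤ 17 * |x| + K1 * l := by
          rw [add_assoc]
          refine (norm_add_le _ _).trans ?_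
          rw [norm_mul, Complex.norm_I, one_mul, Complex.norm_real, Real.norm_eq_abs,
            abs_of_pos ht]
          linarith
        have h6 : (1 + ‖I * (t : ℂ) + u + I * (x : ℂ)‖) ^ 2 ≤
            Real.exp (34 * |x| + 2 * K1 * l) := by
          have h7 : 1 + ‖I * (t : ℂ) + u + I * (x : ℂ)‖ ≤ Real.exp (17 * |x| + K1 * l) := by
            have := Real.add_one_le_exp (17 * |x| + K1 * l)
            linarith
          calc (1 + ‖I * (t : ℂ) + u + I * (x : ℂ)‖) ^ 2 ≤ Real.exp (17 * |x| + K1 * l) ^ 2 :=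
                pow_le_pow_left₀ (by positivity) h7 2
            _ = Real.exp (34 * |x| + 2 * K1 * l) := by
                rw [sq, ← Real.exp_add]
                congr 1
                ring
        have hθ : u.re ≤ K1 * l := (Complex.re_le_norm u).trans hu
        have h8 : Kc * (1 + u.re) * Real.log (2 + u.re) ≤ Kc * (1 + K1) ^ 2 * l ^ 2 := by
          have h9 : Real.log (2 + u.re) ≤ 1 + u.re := by
            have := Real.log_le_sub_one_of_pos (show 0 < 2 + u.re by linarith)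
            linarith
          have h10 : 1 + u.re ≤ (1 + K1) * l := by nlinarith
          calc Kc * (1 + u.re) * Real.log (2 + u.re) ≤ Kc * (1 + u.re) * (1 + u.re) :=
                mul_le_mul_of_nonneg_left h9 (by positivity)
            _ = Kc * (1 + u.re) ^ 2 := by ring
            _ ≤ Kc * ((1 + K1) * l) ^ 2 :=
                mul_le_mul_of_nonneg_left (pow_le_pow_left₀ (by positivity) h10 2) (by positivity)
            _ = Kc * (1 + K1) ^ 2 * l ^ 2 := by ring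
        have h11 : 1 ≤ H * Real.exp (16 * K0 * |x|) := by
          calc (1 : ℝ) = Real.exp (-(K0 * t)) * Real.exp (K0 * t) := by
                rw [← Real.exp_add, neg_add_cancel, Real.exp_zero]
            _ ≤ H * Real.exp (16 * K0 * |x|) := by
                refine mul_le_mul s3 (Real.exp_le_exp.2 ?_) (Real.exp_pos _).le hH0
                nlinarith
        calc ‖HH (I * t + u + I * (x : ℂ))‖
            ≤ (1 + ‖I * (t : ℂ) + u + I * (x : ℂ)‖) ^ 2 *
              Real.exp (Kc * (1 + u.re) * Real.log (2 + u.re)) := h4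
          _ ≤ Real.exp (34 * |x| + 2 * K1 * l) * Real.exp (Kc * (1 + K1) ^ 2 * l ^ 2) :=
              mul_le_mul h6 (Real.exp_le_exp.2 h8) (Real.exp_pos _).le (Real.exp_pos _).le
          _ = 1 * Real.exp (34 * |x| + 2 * K1 * l + Kc * (1 + K1) ^ 2 * l ^ 2) := by
              rw [← Real.exp_add, one_mul]
          _ ≤ (H * Real.exp (16 * K0 * |x|)) *
              Real.exp (34 * |x| + 2 * K1 * l + Kc * (1 + K1) ^ 2 * l ^ 2) :=
              mul_le_mul_of_nonneg_right h11 (Real.exp_pos _).le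
          _ = H * Real.exp (16 * K0 * |x| + (34 * |x| + 2 * K1 * l + Kc * (1 + K1) ^ 2 * l ^ 2)) := by
              rw [mul_assoc, ← Real.exp_add]
          _ ≤ _ := by
              refine mul_le_mul_of_nonneg_left (Real.exp_le_exp.2 ?_) hH0
              have h12 : 2 * K1 * l ≤ 2 * K1 * l ^ 2 :=
                mul_le_mul_of_nonneg_left hll (by positivity)
              have h13 : 0 ≤ (K1 + K0 * K1) * l ^ 2 := by positivity
              nlinarith
    calc Real.exp (-(x ^ 2 / (4 * κ))) * ‖HH (I * t + u + I * (x : ℂ))‖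
        ≤ Real.exp (-(x ^ 2 / (4 * κ))) * (H * Real.exp ((3 * K1 + K0 * K1 +
          Kc * (1 + K1) ^ 2) * l ^ 2 + (34 + 16 * K0) * |x|)) :=
          mul_le_mul_of_nonneg_left hkey (Real.exp_pos _).le
      _ = H * Real.exp ((3 * K1 + K0 * K1 + Kc * (1 + K1) ^ 2) * l ^ 2) *
          Real.exp (-(x ^ 2 / (4 * κ)) + (34 + 16 * K0) * |x|) := by
          rw [Real.exp_add, Real.exp_add]
          ring
  have htG : ‖∫ x in (Set.Ioc (-X) X)ᶜ, M * (G x : ℂ)‖ ≤
      ‖M‖ * Real.exp (-(X ^ 2 / (16 * κ))) * (4 * Real.sqrt Real.pi * Real.sqrt κ) := by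
    refine tail κ 1 X _ hκ ?_ hX0 hM0 _ fun x hx => ?_
    · have : 8 * κ * 1 ≤ 8 * κ * (34 + 16 * K0) :=
        mul_le_mul_of_nonneg_left (by linarith) (by positivity)
      linarith
    · rw [norm_mul, Complex.norm_real, Real.norm_eq_abs,
        abs_of_pos (show 0 < G x from Real.exp_pos _)]
      exact mul_le_mul_of_nonneg_left (Real.exp_le_exp.2 (G_le κ b.im x hκ hb2)) hM0
  -- assembly
  have hGint : Integrable (fun x : ℝ => M * (G x : ℂ)) :=
    ((gauss_main_int κ (2 * κ * b.im) hκ).ofReal).const_mul M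
  have hGval : ∫ x : ℝ, M * (G x : ℂ) = M * ((2 * Real.sqrt Real.pi * Real.sqrt κ : ℝ) : ℂ) := by
    rw [integral_const_mul, integral_complex_ofReal, gauss_main κ (2 * κ * b.im) hκ]
  have hsplitf := integral_add_compl (measurableSet_Ioc (a := -X) (b := X)) hfi
  have hsplitG := integral_add_compl (measurableSet_Ioc (a := -X) (b := X)) hGint
  have hcont : ContinuousOn (fun v : ℝ => F ((-(2 * κ * b.re) : ℝ) + v * I))
      (Set.uIcc (-X) X) := by
    intro v hv
    rw [Set.uIcc_of_le (by linarith)] at hv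
    have h1 : DifferentiableAt ℂ F ((-(2 * κ * b.re) : ℝ) + v * I) := by
      refine hdiff _ (by simp) (by simp; positivity) ?_
      simp
      exact abs_le.2 hv
    have h3 : ContinuousAt (fun v : ℝ => ((-(2 * κ * b.re) : ℝ) : ℂ) + v * I) v := by
      fun_prop
    exact (ContinuousAt.comp (g := F) (f := fun v : ℝ => ((-(2 * κ * b.re) : ℝ) : ℂ) + v * I)
      h1.continuousAt h3).continuousWithinAt
  have hE : ‖(∫ v : ℝ in (-X)..X, F ((-(2 * κ * b.re) : ℝ) + v * I)) -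
      ∫ v in (-X)..X, M * (G v : ℂ)‖ ≤
      ‖M‖ * (K0 / t) * (Real.exp (2 * κ) * (2 * ((K1 + 2 * κ) * l) ^ 2 + 32 * κ)) *
        (4 * Real.sqrt Real.pi * Real.sqrt κ) := by
    rw [← intervalIntegral.integral_sub hcont.intervalIntegrable
      hGint.intervalIntegrable, intervalIntegral.integral_of_le (by linarith)]
    have hg : Integrable fun x : ℝ =>
        ‖M‖ * (K0 / t) * (Real.exp (2 * κ) * (2 * ((K1 + 2 * κ) * l) ^ 2 + 32 * κ)) *
          Real.exp (-(x ^ 2 / (16 * κ))) := (gauss_int κ hκ).const_mul _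
    refine (norm_integral_le_of_norm_le hg.integrableOn
      ((ae_restrict_iff' measurableSet_Ioc).2 (Eventually.of_forall fun v hv =>
        hFM v (abs_le.2 ⟨hv.1.le, hv.2⟩)))).trans ?_
    refine (setIntegral_le_integral hg (Eventually.of_forall fun x => ?_)).trans ?_
    · simp only [Pi.zero_apply]
      positivity
    · rw [integral_const_mul, gauss_bd κ hκ]
  have hN : (0 : ℝ) < 2 * Real.sqrt Real.pi * Real.sqrt κ := by
    have h1 := Real.sqrt_pos.2 Real.pi_pos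
    have h3 := Real.sqrt_pos.2 hκ
    positivity
  have hMN : M = ((1 / (2 * Real.sqrt Real.pi * Real.sqrt κ) : ℝ) : ℂ) *
      ∫ x : ℝ, M * (G x : ℂ) := by
    rw [hGval]
    have h1 : ((1 / (2 * Real.sqrt Real.pi * Real.sqrt κ) : ℝ) : ℂ) *
        ((2 * Real.sqrt Real.pi * Real.sqrt κ : ℝ) : ℂ) = 1 := by
      rw [← Complex.ofReal_mul, one_div_mul_cancel hN.ne', Complex.ofReal_one]
    calc M = M * 1 := (mul_one _).symm
      _ = M * (((1 / (2 * Real.sqrt Real.pi * Real.sqrt κ) : ℝ) : ℂ) *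
        ((2 * Real.sqrt Real.pi * Real.sqrt κ : ℝ) : ℂ)) := by rw [h1]
      _ = _ := by ring
  have hfin : GG κ (I * t + u) - M = ((1 / (2 * Real.sqrt Real.pi * Real.sqrt κ) : ℝ) : ℂ) *
      (((∫ y : ℝ in (-X)..X, F ((0 : ℝ) + y * I)) -
          ∫ y : ℝ in (-X)..X, F ((-(2 * κ * b.re) : ℝ) + y * I)) +
        ((∫ v : ℝ in (-X)..X, F ((-(2 * κ * b.re) : ℝ) + v * I)) -
          ∫ v in (-X)..X, M * (G v : ℂ)) +
        (∫ x in (Set.Ioc (-X) X)ᶜ, f x) - ∫ x in (Set.Ioc (-X) X)ᶜ, M * (G x : ℂ)) := by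
    have h1 : ∫ y : ℝ in (-X)..X, F ((0 : ℝ) + y * I) = ∫ y in Set.Ioc (-X) X, f y := by
      rw [intervalIntegral.integral_of_le (by linarith)]
      refine integral_congr_ae (Eventually.of_forall fun y => hFf y)
    have h3 : ∫ v in (-X)..X, M * (G v : ℂ) = ∫ v in Set.Ioc (-X) X, M * (G v : ℂ) :=
      intervalIntegral.integral_of_le (by linarith)
    rw [h1, h3, hGG]
    nth_rewrite 1 [hMN]
    rw [← hsplitf, ← hsplitG]
    ring
  rw [hfin, norm_mul, Complex.norm_real, Real.norm_eq_abs,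
    abs_of_pos (show 0 < 1 / (2 * Real.sqrt Real.pi * Real.sqrt κ) by positivity)]
  refine mul_le_mul_of_nonneg_left ?_ (by positivity)
  have hab : 2 * (2 * κ * b.re) * (H *
      Real.exp ((K1 + K0 * (K1 + 2 * κ) + κ) * l ^ 2 - X ^ 2 / (16 * κ))) ≤
      2 * (2 * κ * l) * (H *
      Real.exp ((K1 + K0 * (K1 + 2 * κ) + κ) * l ^ 2 - X ^ 2 / (16 * κ))) := by
    refine mul_le_mul_of_nonneg_right ?_ (by positivity)
    have : 2 * κ * b.re ≤ 2 * κ * l := mul_le_mul_of_nonneg_left hb1' (by positivity)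
    linarith
  refine (norm_sub_le _ _).trans (add_le_add ((norm_add_le _ _).trans (add_le_add
    ((norm_add_le _ _).trans (add_le_add (hrect.trans hab) hE)) htf)) htG)

end Pool.Agent.W947.BH
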